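import Pool.Agent.H95.NV.Targets1

/-!
# Every ideal of `K` is a product of an ideal of `k` and of an ideal `A + f⁻¹ w` (row IDX)
-/

set_option autoImplicit false

namespace Pool.Agent.H3.NV

open Pool.Agent.H95.NV NumberField

section Coe

variable {F : Type} [Field F] [NumberField F]

theorem oa (x y : 𝓞 F) : ((x + y : 𝓞 F) : F) = (x : F) + (y : F) :=
  map_add (algebraMap (𝓞 F) F) x y

theorem om (x y : 𝓞 F) : ((x * y : 𝓞 F) : F) = (x : F) * (y : F) :=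
  map_mul (algebraMap (𝓞 F) F) x y

theorem os (x y : 𝓞 F) : ((x - y : 𝓞 F) : F) = (x : F) - (y : F) :=
  map_sub (algebraMap (𝓞 F) F) x y

theorem oz : ((0 : 𝓞 F) : F) = 0 := map_zero (algebraMap (𝓞 F) F)

theorem o1 : ((1 : 𝓞 F) : F) = 1 := map_one (algebraMap (𝓞 F) F)

theorem osum {ι : Type} (s : Finset ι) (g : ι → 𝓞 F) :
    ((∑ i ∈ s, g i : 𝓞 F) : F) = ∑ i ∈ s, (g i : F) :=
  map_sum (algebraMap (𝓞 F) F) g s

theorem oinj {x y : 𝓞 F} (h : (x : F) = (y : F)) : x = y := RingOfIntegers.ext h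

end Coe

variable {k K : Type} [Field k] [NumberField k] [Field K] [NumberField K] [Algebra k K]

theorem oalg (t : 𝓞 k) : ((algebraMap (𝓞 k) (𝓞 K) t : 𝓞 K) : K) = algebraMap k K (t : k) := rfl

/-- `y` is a `w`-coordinate of an element of `J` -/
def P (b₀ : 𝓞 k) (δ : K) (J : Ideal (𝓞 K)) (y : k) : Prop :=
  ∃ j ∈ J, ∃ x : 𝓞 k, (j : K) = algebraMap k K (x : k) + algebraMap k K y * w b₀ δ

theorem P_add (b₀ : 𝓞 k) (δ : K) (J : Ideal (𝓞 K)) {y y' : k} (h : P b₀ δ J y)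
    (h' : P b₀ δ J y') : P b₀ δ J (y + y') := by
  obtain ⟨j, hj, x, hx⟩ := h
  obtain ⟨j', hj', x', hx'⟩ := h'
  refine ⟨j + j', J.add_mem hj hj', x + x', ?_⟩
  rw [oa, hx, hx', oa, map_add, map_add]
  ring

theorem P_smul (b₀ : 𝓞 k) (δ : K) (J : Ideal (𝓞 K)) {y : k} (c : 𝓞 k) (h : P b₀ δ J y) :
    P b₀ δ J ((c : k) * y) := by
  obtain ⟨j, hj, x, hx⟩ := h
  refine ⟨algebraMap (𝓞 k) (𝓞 K) c * j, J.mul_mem_left _ hj, c * x, ?_⟩
  rw [om, hx, om, map_mul, map_mul, oalg]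
  ring

theorem P_zero (b₀ : 𝓞 k) (δ : K) (J : Ideal (𝓞 K)) : P b₀ δ J 0 :=
  ⟨0, J.zero_mem, 0, by rw [oz, oz]; simp⟩

theorem P_sum (b₀ : 𝓞 k) (δ : K) (J : Ideal (𝓞 K)) {ι : Type} (s : Finset ι) (g : ι → k)
    (h : ∀ i ∈ s, P b₀ δ J (g i)) : P b₀ δ J (∑ i ∈ s, g i) := by
  classical
  induction s using Finset.induction_on with
  | empty => simpa using P_zero b₀ δ J
  | insert a s ha ih =>
    rw [Finset.sum_insert ha]
    exact P_add b₀ δ J (h a (Finset.mem_insert_self a s))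
      (ih fun i hi => h i (Finset.mem_insert_of_mem hi))

/-- the ideal `f Q(J)` -/
def gI (f : Ideal (𝓞 k)) (b₀ : 𝓞 k) (δ : K) (J : Ideal (𝓞 K)) : Ideal (𝓞 k) where
  carrier := {a | ∀ q ∈ fi f, P b₀ δ J ((a : k) * q)}
  zero_mem' := by
    intro q _
    rw [oz, zero_mul]
    exact P_zero b₀ δ J
  add_mem' := by
    intro a a' ha ha' q hq
    rw [oa, add_mul]
    exact P_add b₀ δ J (ha q hq) (ha' q hq)
  smul_mem' := by
    intro c a ha q hq
    rw [smul_eq_mul, om, mul_assoc]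
    exact P_smul b₀ δ J c (ha q hq)

theorem w_sq (b₀ D c₀ : 𝓞 k) (δ : K) (hδ : δ ^ 2 = -algebraMap k K (D : k))
    (h4 : 4 * c₀ = b₀ ^ 2 + D) :
    w b₀ δ * w b₀ δ = algebraMap k K (b₀ : k) * w b₀ δ - algebraMap k K (c₀ : k) := by
  have h5 : (4 : k) * (c₀ : k) = (b₀ : k) ^ 2 + (D : k) := by
    have := congrArg (algebraMap (𝓞 k) k) h4
    rw [map_mul, map_add, map_pow, map_ofNat] at this
    exact this
  have h6 : (4 : K) * algebraMap k K (c₀ : k) =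
      algebraMap k K (b₀ : k) ^ 2 + algebraMap k K (D : k) := by
    have := congrArg (algebraMap k K) h5
    rw [map_mul, map_add, map_pow, map_ofNat] at this
    exact this
  have h7 : algebraMap k K (c₀ : k) =
      (algebraMap k K (b₀ : k) ^ 2 + algebraMap k K (D : k)) / 4 := by
    rw [← h6]; ring
  unfold w
  rw [h7]
  have h8 : (algebraMap k K (b₀ : k) + δ) / 2 * ((algebraMap k K (b₀ : k) + δ) / 2) =
    (algebraMap k K (b₀ : k) ^ 2 + 2 * algebraMap k K (b₀ : k) * δ + δ ^ 2) / 4 := by ring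
  rw [h8, hδ]
  ring

theorem pf_IDX (hCOO : T_COO) (hFNV : T_FNV) : T_IDX := by
  intro k K _ _ _ _ _ _ _ f D b₀ δ hKD J hJ
  obtain ⟨hf, hpos, hsq, ⟨-, hb, c₀, hc₀, h4⟩, hint⟩ := hKD
  rw [← Ideal.one_eq_top, one_mul] at hc₀
  obtain ⟨-, huniq0, -, -⟩ := hCOO k K D b₀ δ hpos hsq
  obtain ⟨⟨S, hS, hS1⟩, hfadd, hfsmul, ⟨q₀, hq₀, hq₀0⟩, -, hfm⟩ := hFNV k f hf
  have hww := w_sq b₀ D c₀ δ hsq h4
  have hinjk : Function.Injective (algebraMap k K) := (algebraMap k K).injective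
  have huniq : ∀ x y x' y' : k, algebraMap k K x + algebraMap k K y * w b₀ δ =
      algebraMap k K x' + algebraMap k K y' * w b₀ δ → x = x' ∧ y = y' := by
    intro x y x' y' h
    have h1 := huniq0 (x - x') (y - y') (by
      rw [map_sub, map_sub]
      linear_combination h)
    exact ⟨sub_eq_zero.1 h1.1, sub_eq_zero.1 h1.2⟩
  -- coordinates of an integer
  have hco : ∀ z : 𝓞 K, ∃ (p : 𝓞 k) (q : k), q ∈ fi f ∧
      (z : K) = algebraMap k K (p : k) + algebraMap k K q * w b₀ δ := fun z =>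
    (hint z).1 ⟨z, rfl⟩
  have hmk : ∀ (p : 𝓞 k) (q : k), q ∈ fi f → ∃ z : 𝓞 K,
      (z : K) = algebraMap k K (p : k) + algebraMap k K q * w b₀ δ := fun p q hq =>
    (hint _).2 ⟨p, q, hq, rfl⟩
  -- products of an element of `f` with an element of the inverse
  have hfq : ∀ a ∈ f, ∀ q ∈ fi f, ∃ t : 𝓞 k, (t : k) = (a : k) * q := by
    intro a ha q hq
    obtain ⟨t, ht⟩ := hq a ha
    exact ⟨t, by rw [ht, mul_comm]⟩
  have hf2 : ∀ c ∈ f ^ 2, ∀ q ∈ fi f, ∃ t ∈ f, (t : k) = q * (c : k) := by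
    intro c hc
    exact (hfm f (c : k)).2 ⟨c, by rw [pow_two] at hc; exact hc, rfl⟩
  have hPf : ∀ (J : Ideal (𝓞 K)) (y : k), P b₀ δ J y → y ∈ fi f := by
    rintro J y ⟨j, hj, x, hx⟩
    obtain ⟨p, q, hq, h⟩ := hco j
    rw [(huniq _ _ _ _ (hx.symm.trans h)).2]
    exact hq
  -- (1)
  have hQ1 : ∀ (J : Ideal (𝓞 K)) (y : k), P b₀ δ J y →
      ∀ a ∈ f, ∃ t ∈ gI f b₀ δ J, (t : k) = (a : k) * y := by
    intro J y hy a ha
    obtain ⟨t, ht⟩ := hfq a ha y (hPf J y hy)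
    refine ⟨t, ?_, ht⟩
    intro q hq
    obtain ⟨t', ht'⟩ := hfq a ha q hq
    rw [ht, show (a : k) * y * q = (t' : k) * y by rw [ht']; ring]
    exact P_smul b₀ δ J t' hy
  -- (2)
  have hx1 : ∀ (J : Ideal (𝓞 K)) (z : 𝓞 K), z ∈ J → ∀ (x : 𝓞 k) (y : k),
      (z : K) = algebraMap k K (x : k) + algebraMap k K y * w b₀ δ → x ∈ gI f b₀ δ J := by
    intro J z hz x y hxy q hq
    have hy : P b₀ δ J y := ⟨z, hz, x, hxy⟩
    obtain ⟨qw, hqw⟩ := hmk 0 q hq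
    rw [oz, map_zero, zero_add] at hqw
    obtain ⟨qb, hqb⟩ := hfq b₀ hb q hq
    obtain ⟨t1, ht1, ht1'⟩ := hf2 c₀ hc₀ q hq
    obtain ⟨t2, ht2⟩ := hfq t1 ht1 y (hPf J y hy)
    -- `q w z = - q y c₀ + (q x + q y b₀) w`
    have h1 : P b₀ δ J ((x : k) * q + (qb : k) * y) := by
      refine ⟨qw * z, J.mul_mem_left _ hz, -t2, ?_⟩
      have h2 : ((-t2 : 𝓞 k) : k) = -((t2 : 𝓞 k) : k) := map_neg (algebraMap (𝓞 k) k) t2
      rw [om, hqw, hxy, h2, ht2, ht1', hqb, map_neg, map_add, map_mul, map_mul, map_mul, map_mul,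
        map_mul]
      linear_combination (algebraMap k K q * algebraMap k K y) * hww
    have h3 := P_add b₀ δ J h1 (P_smul b₀ δ J (-qb) hy)
    have h4' : ((-qb : 𝓞 k) : k) = -((qb : 𝓞 k) : k) := map_neg (algebraMap (𝓞 k) k) qb
    rw [h4'] at h3
    have h5 : (x : k) * q + (qb : k) * y + -(qb : k) * y = (x : k) * q := by ring
    rwa [h5] at h3
  have hg0 : ∀ J : Ideal (𝓞 K), J ≠ ⊥ → gI f b₀ δ J ≠ ⊥ := by
    intro J hJ h0
    obtain ⟨z, hz, hz0⟩ := Submodule.exists_mem_ne_zero_of_ne_bot hJ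
    obtain ⟨x, y, hy, hxy⟩ := hco z
    have hx := hx1 J z hz x y hxy
    rw [h0, Ideal.mem_bot] at hx
    obtain ⟨a, ha, ha0⟩ := Submodule.exists_mem_ne_zero_of_ne_bot hf
    obtain ⟨t, ht, ht'⟩ := hQ1 J y ⟨z, hz, x, hxy⟩ a ha
    rw [h0, Ideal.mem_bot] at ht
    rw [ht, oz] at ht'
    have hy0 : y = 0 := by
      rcases mul_eq_zero.1 ht'.symm with h | h
      · exact absurd (oinj (h.trans oz.symm)) ha0
      · exact h
    apply hz0
    apply oinj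
    rw [hxy, hx, hy0, oz, oz]
    simp
  -- the elements of an extended ideal
  have hmap : ∀ (h : Ideal (𝓞 k)) (z : 𝓞 K), z ∈ h.map (algebraMap (𝓞 k) (𝓞 K)) →
      ∃ x ∈ h, ∃ y : k, (∀ c ∈ f, ∃ t ∈ h, (t : k) = (c : k) * y) ∧
        (z : K) = algebraMap k K (x : k) + algebraMap k K y * w b₀ δ := by
    intro h z hz
    refine Submodule.span_induction (p := fun z _ => ∃ x ∈ h, ∃ y : k,
      (∀ c ∈ f, ∃ t ∈ h, (t : k) = (c : k) * y) ∧
        ((z : 𝓞 K) : K) = algebraMap k K (x : k) + algebraMap k K y * w b₀ δ) ?_ ?_ ?_ ?_ hz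
    · rintro _ ⟨x, hx, rfl⟩
      refine ⟨x, hx, 0, ?_, ?_⟩
      · intro c _
        exact ⟨0, h.zero_mem, by rw [oz, mul_zero]⟩
      · change algebraMap k K (x : k) = _
        simp
    · refine ⟨0, h.zero_mem, 0, ?_, ?_⟩
      · intro c _
        exact ⟨0, h.zero_mem, by rw [oz, mul_zero]⟩
      · rw [oz, oz]; simp
    · rintro z z' - - ⟨x, hx, y, hy, hxy⟩ ⟨x', hx', y', hy', hxy'⟩
      refine ⟨x + x', h.add_mem hx hx', y + y', ?_, ?_⟩
      · intro c hc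
        obtain ⟨t, ht, h1⟩ := hy c hc
        obtain ⟨t', ht', h1'⟩ := hy' c hc
        exact ⟨t + t', h.add_mem ht ht', by rw [oa, h1, h1']; ring⟩
      · rw [oa, hxy, hxy', oa, map_add, map_add]; ring
    · rintro o z - ⟨x, hx, y, hy, hxy⟩
      obtain ⟨p, q, hq, hpq⟩ := hco o
      obtain ⟨t1, ht1, ht1'⟩ := hf2 c₀ hc₀ q hq
      obtain ⟨t2, ht2, ht2'⟩ := hy t1 ht1
      obtain ⟨qb, hqb⟩ := hfq b₀ hb q hq
      refine ⟨p * x - t2, h.sub_mem (h.mul_mem_left _ hx) ht2,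
        (x : k) * q + (p : k) * y + (qb : k) * y, ?_, ?_⟩
      · intro c hc
        obtain ⟨t, ht, h1⟩ := hy c hc
        obtain ⟨cq, hcq⟩ := hfq c hc q hq
        refine ⟨cq * x + p * t + qb * t, h.add_mem (h.add_mem (h.mul_mem_left _ hx)
          (h.mul_mem_left _ ht)) (h.mul_mem_left _ ht), ?_⟩
        rw [oa, oa, om, om, om, h1, hcq]
        ring
      · rw [smul_eq_mul, om, hpq, hxy, os, om, ht2', ht1', hqb]
        simp only [map_sub, map_mul, map_add]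
        linear_combination (algebraMap k K q * algebraMap k K y) * hww
  -- (4)
  have hle : ∀ J : Ideal (𝓞 K), J ≤ (gI f b₀ δ J).map (algebraMap (𝓞 k) (𝓞 K)) := by
    intro J z hz
    obtain ⟨x, y, hy, hxy⟩ := hco z
    have hx := hx1 J z hz x y hxy
    have hyP : P b₀ δ J y := ⟨z, hz, x, hxy⟩
    have h1 : ∀ i ∈ S, ∃ o : 𝓞 K, o ∈ (gI f b₀ δ J).map (algebraMap (𝓞 k) (𝓞 K)) ∧
        (o : K) = algebraMap k K ((i.1 : k) * i.2 * y) * w b₀ δ := by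
      intro i hi
      obtain ⟨hi1, hi2⟩ := hS i hi
      obtain ⟨t, ht, ht'⟩ := hQ1 J y hyP i.1 hi1
      obtain ⟨o, ho⟩ := hmk 0 i.2 hi2
      rw [oz, map_zero, zero_add] at ho
      refine ⟨algebraMap (𝓞 k) (𝓞 K) t * o, Ideal.mul_mem_right _ _ (Ideal.mem_map_of_mem _ ht), ?_⟩
      rw [om, oalg, ht', ho]
      simp only [map_mul]
      ring
    choose! o ho ho' using h1
    have h2 : z = algebraMap (𝓞 k) (𝓞 K) x + ∑ i ∈ S, o i := by
      apply oinj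
      rw [oa, osum, oalg, Finset.sum_congr rfl ho', ← Finset.sum_mul, ← map_sum, ← Finset.sum_mul,
        hS1, one_mul, hxy]
    rw [h2]
    exact Ideal.add_mem _ (Ideal.mem_map_of_mem _ hx) (Ideal.sum_mem _ ho)
  -- (5)
  obtain ⟨g, hgdef⟩ : ∃ g : Ideal (𝓞 k), g = gI f b₀ δ J := ⟨_, rfl⟩
  have hgne : g ≠ ⊥ := by rw [hgdef]; exact hg0 J hJ
  obtain ⟨J', hJ'⟩ : g.map (algebraMap (𝓞 k) (𝓞 K)) ∣ J := by
    rw [Ideal.dvd_iff_le, hgdef]
    exact hle J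
  obtain ⟨g', hg'def⟩ : ∃ g' : Ideal (𝓞 k), g' = gI f b₀ δ J' := ⟨_, rfl⟩
  have hg'top : g' = ⊤ := by
    obtain ⟨J'', hJ''⟩ : g'.map (algebraMap (𝓞 k) (𝓞 K)) ∣ J' := by
      rw [Ideal.dvd_iff_le, hg'def]
      exact hle J'
    have h1 : J ≤ (g * g').map (algebraMap (𝓞 k) (𝓞 K)) := by
      rw [← Ideal.dvd_iff_le, Ideal.map_mul, hJ', hJ'', ← mul_assoc]
      exact Dvd.intro _ rfl
    have h2 : g ≤ g * g' := by
      intro a ha
      have ha' : ∀ q ∈ fi f, P b₀ δ J ((a : k) * q) := by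
        rw [hgdef] at ha
        exact ha
      have h3 : ∀ i ∈ S, ∃ t : 𝓞 k, t ∈ g * g' ∧ (t : k) = (i.1 : k) * i.2 * (a : k) := by
        intro i hi
        obtain ⟨hi1, hi2⟩ := hS i hi
        obtain ⟨j, hj, x, hx⟩ := ha' i.2 hi2
        obtain ⟨x', hx', y', hy', hxy'⟩ := hmap (g * g') j (h1 hj)
        have h4 := (huniq _ _ _ _ (hx.symm.trans hxy')).2
        obtain ⟨t, ht, ht'⟩ := hy' i.1 hi1
        refine ⟨t, ht, ?_⟩
        rw [ht', ← h4]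
        ring
      choose! t ht ht' using h3
      have h4 : a = ∑ i ∈ S, t i := by
        apply oinj
        rw [osum, Finset.sum_congr rfl ht', ← Finset.sum_mul, hS1, one_mul]
      rw [h4]
      exact Ideal.sum_mem _ ht
    have h5 : g * g' = g * ⊤ := by
      rw [Ideal.mul_top]
      exact le_antisymm Ideal.mul_le_left h2
    exact mul_left_cancel₀ hgne h5
  have hJ'ne : J' ≠ ⊥ := by
    rintro rfl
    apply hJ
    rw [hJ', Ideal.mul_bot]
  -- the elements of `J'` with given coordinate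
  have hP' : ∀ q ∈ fi f, P b₀ δ J' q := by
    intro q hq
    have h1 : (1 : 𝓞 k) ∈ gI f b₀ δ J' := by
      rw [← hg'def, hg'top]
      exact Submodule.mem_top
    have h2 := h1 q hq
    rwa [o1, one_mul] at h2
  have hz1 : ∀ i ∈ S, ∃ (j : 𝓞 K) (x : 𝓞 k), j ∈ J' ∧
      (j : K) = algebraMap k K (x : k) + algebraMap k K i.2 * w b₀ δ := by
    intro i hi
    obtain ⟨j, hj, x, hx⟩ := hP' i.2 (hS i hi).2
    exact ⟨j, x, hj, hx⟩
  choose! z1 x1 hz1J hz1x using hz1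
  obtain ⟨s, hs⟩ : ∃ s : 𝓞 k, s = ∑ i ∈ S, i.1 * x1 i := ⟨_, rfl⟩
  have hsf : s ∈ f := by
    rw [hs]
    exact Ideal.sum_mem _ fun i hi => Ideal.mul_mem_right _ _ (hS i hi).1
  have hwb : w (b₀ + 2 * s) δ = w b₀ δ + algebraMap k K (s : k) := by
    unfold w
    have h1 : ((b₀ + 2 * s : 𝓞 k) : k) = (b₀ : k) + 2 * (s : k) := by
      rw [oa, om]
      have : ((2 : 𝓞 k) : k) = 2 := map_ofNat (algebraMap (𝓞 k) k) 2
      rw [this]
    rw [h1, map_add, map_mul, map_ofNat]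
    ring
  have hswK : algebraMap k K (s : k) + w b₀ δ = ∑ i ∈ S, algebraMap k K (i.1 : k) *
      (algebraMap k K (x1 i : k) + algebraMap k K i.2 * w b₀ δ) := by
    have h1 : ∑ i ∈ S, algebraMap k K (i.1 : k) *
      (algebraMap k K (x1 i : k) + algebraMap k K i.2 * w b₀ δ) =
        ∑ i ∈ S, (algebraMap k K ((i.1 * x1 i : 𝓞 k) : k) +
          algebraMap k K ((i.1 : k) * i.2) * w b₀ δ) := by
      refine Finset.sum_congr rfl fun i _ => ?_
      rw [om, map_mul, map_mul]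
      ring
    rw [h1, Finset.sum_add_distrib, ← map_sum, ← osum, ← hs, ← Finset.sum_mul, ← map_sum, hS1,
      map_one, one_mul]
  -- `q w(b) ∈ J'`
  have hqw : ∀ q ∈ fi f, ∃ j ∈ J', ((j : 𝓞 K) : K) = algebraMap k K q * w (b₀ + 2 * s) δ := by
    intro q hq
    have h1 : ∀ i ∈ S, ∃ j : 𝓞 K, j ∈ J' ∧ (j : K) = algebraMap k K q * (algebraMap k K (i.1 : k) *
      (algebraMap k K (x1 i : k) + algebraMap k K i.2 * w b₀ δ)) := by
      intro i hi
      obtain ⟨t, ht⟩ := hfq i.1 (hS i hi).1 q hq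
      refine ⟨algebraMap (𝓞 k) (𝓞 K) t * z1 i, J'.mul_mem_left _ (hz1J i hi), ?_⟩
      rw [om, oalg, ht, hz1x i hi, map_mul]
      ring
    choose! j hj hj' using h1
    refine ⟨∑ i ∈ S, j i, Ideal.sum_mem _ hj, ?_⟩
    rw [osum, Finset.sum_congr rfl hj', ← Finset.mul_sum, ← hswK, hwb]
    ring
  obtain ⟨A, hA⟩ : ∃ A : Ideal (𝓞 k), A = J'.comap (algebraMap (𝓞 k) (𝓞 K)) := ⟨_, rfl⟩
  have hAmem : ∀ t : 𝓞 k, t ∈ A ↔ algebraMap (𝓞 k) (𝓞 K) t ∈ J' := by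
    intro t
    rw [hA, Ideal.mem_comap]
  have hAne : A ≠ ⊥ := by
    rw [hA]
    exact Ideal.IsIntegral.comap_ne_bot (𝓞 k) hJ'ne
  obtain ⟨c, hc⟩ : ∃ c : 𝓞 k, c = c₀ + b₀ * s + s ^ 2 := ⟨_, rfl⟩
  have h4c : 4 * c = (b₀ + 2 * s) ^ 2 + D := by
    rw [hc]
    linear_combination h4
  have hcf : c ∈ f ^ 2 := by
    rw [hc]
    refine Ideal.add_mem _ (Ideal.add_mem _ hc₀ ?_) (Ideal.pow_mem_pow hsf 2)
    rw [pow_two]
    exact Ideal.mul_mem_mul hb hsf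
  have hbf : b₀ + 2 * s ∈ f := f.add_mem hb (f.mul_mem_left _ hsf)
  have hww' := w_sq (b₀ + 2 * s) D c δ hsq h4c
  have hcA : c ∈ A * f ^ 2 := by
    rw [pow_two, ← mul_assoc]
    obtain ⟨t, ht, ht'⟩ := (hfm (A * f) (c : k)).1 (by
      intro q hq
      refine (hfm A (q * (c : k))).1 ?_
      intro q' hq'
      obtain ⟨t1, ht1, ht1'⟩ := hf2 c hcf q hq
      obtain ⟨t2, ht2⟩ := hfq t1 ht1 q' hq'
      obtain ⟨qb, hqb⟩ := hfq (b₀ + 2 * s) hbf q' hq'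
      refine ⟨t2, ?_, by rw [ht2, ht1']; ring⟩
      rw [hAmem]
      obtain ⟨j1, hj1, hj1'⟩ := hqw q hq
      obtain ⟨j2, hj2, hj2'⟩ := hqw q' hq'
      have h1 : algebraMap (𝓞 k) (𝓞 K) t2 = (algebraMap (𝓞 k) (𝓞 K) qb - j2) * j1 := by
        apply oinj
        rw [om, os, oalg, oalg, ht2, ht1', hqb, hj1', hj2']
        simp only [map_mul]
        linear_combination (algebraMap k K q * algebraMap k K q') * hww'
      rw [h1]
      exact J'.mul_mem_left _ hj1)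
    rwa [oinj ht'] at ht
  refine ⟨g, A, b₀ + 2 * s, hgne, ⟨hAne, hbf, c, hcA, h4c⟩, ?_⟩
  rw [hJ']
  congr 1
  apply le_antisymm
  · intro z hz
    obtain ⟨p, q, hq, hpq⟩ := hco z
    obtain ⟨j, hj, hj'⟩ := hqw q hq
    obtain ⟨sq, hsq'⟩ := hfq s hsf q hq
    have h1 : z = algebraMap (𝓞 k) (𝓞 K) (p - sq) + j := by
      apply oinj
      rw [oa, oalg, os, hsq', hj', hpq, hwb]
      simp only [map_sub, map_mul]
      ring
    have h2 : p - sq ∈ A := by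
      rw [hAmem]
      have h3 : algebraMap (𝓞 k) (𝓞 K) (p - sq) = z - j := by rw [h1]; ring
      rw [h3]
      exact J'.sub_mem hz hj
    rw [h1]
    unfold Pool.Agent.H95.NV.Id
    refine Ideal.add_mem _ (Ideal.mem_sup_left (Ideal.mem_map_of_mem _ h2))
      (Ideal.mem_sup_right (Ideal.subset_span ⟨q, hq, hj'⟩))
  · unfold Pool.Agent.H95.NV.Id
    rw [sup_le_iff]
    constructor
    · rw [Ideal.map_le_iff_le_comap, hA]
    · rw [Ideal.span_le]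
      rintro z ⟨q, hq, hz⟩
      obtain ⟨j, hj, hj'⟩ := hqw q hq
      have h1 : z = j := oinj (hz.trans hj'.symm)
      rw [SetLike.mem_coe, h1]
      exact hj

end Pool.Agent.H3.NV
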