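import Pool.Agent.H95.NV.Targets3
import Pool.Agent.H31.CN.T6

/-!
# Few real characters if there is a small split prime (row ORD)
-/

set_option autoImplicit false

namespace Pool.Agent.H3.NV

open Pool.Agent.H95.NV NumberField
open scoped nonZeroDivisors
open Pool.Agent.H65.CM4 (Pl rv nm dk dg V2 Fo)
open Pool.Agent.H89.NV (PrI np TrK)

theorem nm_ext {k K : Type} [Field k] [NumberField k] [Field K] [NumberField K] [Algebra k K]
    [Algebra.IsQuadraticExtension k K] (e : Ideal (𝓞 k)) :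
    nm (e.map (algebraMap (𝓞 k) (𝓞 K))) = nm e ^ 2 := by
  unfold nm
  rw [Ideal.absNorm_algebraMap, ← IsFractionRing.finrank_eq (𝓞 k) k (𝓞 K) K,
    Algebra.IsQuadraticExtension.finrank_eq_two k K]
  push_cast
  ring

theorem nm_pos {k : Type} [Field k] [NumberField k] (e : Ideal (𝓞 k)) (he : e ≠ ⊥) :
    0 < nm e := by
  unfold nm
  rw [Nat.cast_pos, Nat.pos_iff_ne_zero]
  intro h
  exact he (Ideal.absNorm_eq_zero_iff.1 h)

theorem nm_ge_one {k : Type} [Field k] [NumberField k] (e : Ideal (𝓞 k)) (he : e ≠ ⊥) :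
    1 ≤ nm e := by
  have := nm_pos e he
  unfold nm at *
  rw [Nat.cast_pos] at this
  exact_mod_cast this

theorem pf_ORD (hSPP : T_SPP) (hSMV : T_SMV) (hCHC : T_CHC) (hHKC : T_HKC)
    (hCH2 : Pool.Agent.H31.CN.T_CH2) : T_ORD := by
  intro k K _ _ _ _ _ _ _ f D b δ hKD P h2 hspl J hJ
  obtain ⟨p, hp0, hpP, hpe⟩ := hSPP k K f D b δ hKD P h2 hspl
  obtain ⟨hfinG, hfinC, e, -, hee, hcard⟩ := hCHC k K
  obtain ⟨hHk, -⟩ := hHKC k K
  have hmap0 : ∀ a : Ideal (𝓞 k), a ≠ ⊥ → a.map (algebraMap (𝓞 k) (𝓞 K)) ≠ ⊥ := by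
    intro a ha h
    rw [Ideal.map_eq_bot_iff_of_injective (FaithfulSMul.algebraMap_injective (𝓞 k) (𝓞 K))] at h
    exact ha h
  have hnp1 : 1 ≤ np P := nm_ge_one P.1 P.2.2
  have hnmp : nm p = np P := by
    unfold np nm
    rw [← hpP, Ideal.absNorm_relNorm]
  let p0 : (Ideal (𝓞 K))⁰ := ⟨p, mem_nonZeroDivisors_iff_ne_zero.2 hp0⟩
  have hord : ∀ j : ℕ, 1 ≤ j → j ≤ J → (cl k K p0) ^ (2 * j) ≠ 1 := by
    intro j hj1 hjJ h
    have h1 : ClassGroup.mk0 p0 ^ (2 * j) ∈ Hk k K := by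
      have h2 : (QuotientGroup.mk (ClassGroup.mk0 p0 ^ (2 * j)) : Gk k K) = 1 := by
        rw [QuotientGroup.mk_pow]
        exact h
      exact (QuotientGroup.eq_one_iff _).1 h2
    obtain ⟨I, hI⟩ := (hHk _).1 h1
    rw [← map_pow, ClassGroup.mk0_eq_mk0_iff] at hI
    obtain ⟨y, z, hy, hz, hyz⟩ := hI
    have hI0 : (I : Ideal (𝓞 k)) ≠ ⊥ := nonZeroDivisors.ne_zero I.2
    have hyz' : Ideal.span {y} * p ^ (2 * j) =
      Ideal.span {z} * (I : Ideal (𝓞 k)).map (algebraMap (𝓞 k) (𝓞 K)) := hyz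
    obtain ⟨a, ha, ha0⟩ := Submodule.exists_mem_ne_zero_of_ne_bot hI0
    obtain ⟨e', he'⟩ : (I : Ideal (𝓞 k)) ∣ Ideal.span {a} := by
      rw [Ideal.dvd_span_singleton]
      exact ha
    have he'0 : e' ≠ ⊥ := by
      rintro rfl
      rw [Ideal.mul_bot, Ideal.span_singleton_eq_bot] at he'
      exact ha0 he'
    have h3 : Ideal.span {y} * (p ^ (2 * j) * e'.map (algebraMap (𝓞 k) (𝓞 K))) =
        Ideal.span {z * algebraMap (𝓞 k) (𝓞 K) a} := by
      rw [← mul_assoc, hyz', mul_assoc, ← Ideal.map_mul, ← he', Ideal.map_span,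
        Set.image_singleton, Ideal.span_singleton_mul_span_singleton]
    have h4 : z * algebraMap (𝓞 k) (𝓞 K) a ∈ Ideal.span {y} := by
      have h5 : Ideal.span {z * algebraMap (𝓞 k) (𝓞 K) a} ≤ Ideal.span {y} := by
        rw [← h3]
        exact Ideal.mul_le_left
      exact h5 (Ideal.mem_span_singleton_self _)
    obtain ⟨z', hz'⟩ := Ideal.mem_span_singleton.1 h4
    have hspany : (Ideal.span {y} : Ideal (𝓞 K)) ≠ ⊥ := by
      rw [Ne, Ideal.span_singleton_eq_bot]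
      exact hy
    have h6 : p ^ (2 * j) * e'.map (algebraMap (𝓞 k) (𝓞 K)) = Ideal.span {z'} := by
      refine mul_left_cancel₀ hspany ?_
      rw [h3, hz', Ideal.span_singleton_mul_span_singleton]
    have h7 : z' ∈ e'.map (algebraMap (𝓞 k) (𝓞 K)) := by
      have h8 : Ideal.span {z'} ≤ e'.map (algebraMap (𝓞 k) (𝓞 K)) := by
        rw [← h6]
        exact Ideal.mul_le_right
      exact h8 (Ideal.mem_span_singleton_self _)
    have h8 : nm (Ideal.span {z'}) = np P ^ (2 * j) * nm e' ^ 2 := by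
      rw [← h6, ← nm_ext (K := K), ← hnmp]
      unfold nm
      rw [map_mul, map_pow]
      push_cast
      ring
    obtain ⟨x', hx', hzx⟩ := hSMV k K f D b δ hKD e' z' h7 (by
      rw [h8, ← mul_assoc]
      refine mul_lt_mul_of_pos_right (lt_of_le_of_lt ?_ hJ) (pow_pos (nm_pos e' he'0) 2)
      refine mul_le_mul_of_nonneg_left (pow_le_pow_right₀ hnp1 (by omega)) (by positivity))
    obtain ⟨e'', he''⟩ : e' ∣ Ideal.span {x'} := by
      rw [Ideal.dvd_span_singleton]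
      exact hx'
    refine hpe (2 * j) e'' (by omega) ?_
    refine mul_right_cancel₀ (hmap0 e' he'0) ?_
    rw [h6, hzx, ← Ideal.map_mul, mul_comm e'' e', ← he'', Ideal.map_span, Set.image_singleton]
  obtain ⟨h9, -⟩ := hCH2 (Gk k K) (cl k K p0) J hord
  have h10 : Nat.card {ψ : ClassGroup (𝓞 K) →* ℂˣ // TrK k K ψ ∧ ψ * ψ = 1} =
      Nat.card {φ : Gk k K →* ℂˣ // φ * φ = 1} := by
    symm
    refine Nat.card_congr ?_
    refine
      { toFun := fun φ => ⟨(e φ.1).1, (e φ.1).2, (hee φ.1).1 φ.2⟩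
        invFun := fun ψ => ⟨e.symm ⟨ψ.1, ψ.2.1⟩, by
          rw [hee, Equiv.apply_symm_apply]
          exact ψ.2.2⟩
        left_inv := fun φ => by
          apply Subtype.ext
          simp
        right_inv := fun ψ => by
          apply Subtype.ext
          simp }
  have hG0 : 0 < (Nat.card (Gk k K) : ℝ) := by
    rw [Nat.cast_pos]
    exact Nat.card_pos
  unfold rcp
  rw [h10, hcard, ← mul_div_assoc, div_le_one hG0]
  exact_mod_cast h9

end Pool.Agent.H3.NV
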